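import Pool.Agent.H43.BZ.All2

/-!
# Slow implosions of the Boltzmann equation do not exist

Non-cutoff Boltzmann equation on the torus, `0 ≤ γ`, `γ + 2s ≤ 2`, any dimension `d ≥ 2`.

(i) If mass and energy densities are at most `A (T-t)^(-a)` and `A (T-t)^(-e)`, where for some
`0 ≤ x < 1/(d+γ)` one has `a < 1 - γ x` and `e < 1 + (2-γ) x` (for instance any
`a < d/(d+γ)`, `e < (d+2)/(d+γ)`), then mass, energy and entropy densities are bounded on `[0,T)`.

(ii) At an implosion singularity `x₀` these two bounds cannot hold together in any neighbourhood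
of `x₀`, at times close to `T`.

(iii) In particular the rates `ρ ~ (T-t)^(-d(1-1/r))`, `E ~ (T-t)^(-(d+2)(1-1/r))`,
`1 < r ≤ 2d/(d+√d)`, of the self-similar implosions of the Euler equations of a monatomic gas
(`(d+2)/d` is the adiabatic exponent) are impossible in dimension two, and in dimension three if
`γ < √3`.

Proof.  Let `P(v) = (1+|v|²)^(-4(d+3))`.  At a point where `f(t,x,·) ≤ N P(·/R)` touches, the
collision operator is at most `C N P(v/R) Λ_R`, where `Λ_R ≤ 2 R^γ (ρ + E/R²)` for `γ ≥ 0`.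
With `R = (T-t)^(-x)` (along dyadic times) this gives `f ≤ B P((T-t)^x v)` on `[0,T)`, and then
the minimal rate `N R^(d+γ) (T-t) > c` at the scale `R = (T-t)^(-x)` is violated since
`(d+γ) x < 1`.
-/

set_option autoImplicit false

open MeasureTheory Metric Set Filter Topology
open scoped RealInnerProductSpace ENNReal

namespace Pool.Agent.H43.Former.ImplosionRates

open Pool.Agent.H43.BZ

theorem result : ∀ d : ℕ, 2 ≤ d → ∀ s γ K : ℝ, 0 < s → s < 1 → 0 ≤ γ → γ + 2 * s ≤ 2 → 0 ≤ K →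
    ∀ b : ℝ → ℝ, Ker d s K b → ∀ (T : ℝ) (f : ℝ → E d → E d → ℝ), 0 < T → Sol d γ b T f →
    (∀ x a e A : ℝ, 0 ≤ x → ((d : ℝ) + γ) * x < 1 → a < 1 - γ * x → e < 1 + (2 - γ) * x →
      (∀ t ∈ Ico 0 T, ∀ y,
        mass f t y ≤ A * (T - t) ^ (-a) ∧ energy f t y ≤ A * (T - t) ^ (-e)) →
      ∃ B : ℝ, ∀ t ∈ Ico 0 T, ∀ y, (∀ v, f t y v ≤ B * P d v) ∧ mass f t y ≤ B ∧
        energy f t y ≤ B ∧ ∫ v, f t y v * Real.log (f t y v) ≤ B) ∧
    (∀ x₀ : E d, Implosion T f x₀ →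
      ∀ x a e A ε : ℝ, 0 ≤ x → ((d : ℝ) + γ) * x < 1 → 0 ≤ a → a < 1 - γ * x →
        0 ≤ e → e < 1 + (2 - γ) * x → 0 < ε →
      ∀ T' ∈ Ico 0 T, ∃ t ∈ Ico T' T, ∃ y, ¬ Far ε x₀ y ∧
        (A * (T - t) ^ (-a) < mass f t y ∨ A * (T - t) ^ (-e) < energy f t y)) ∧
    (∀ x₀ : E d, Implosion T f x₀ → d = 2 ∨ d = 3 ∧ γ < √3 →
      ∀ r A ε : ℝ, 1 < r → r ≤ 2 * d / (d + √d) → 0 < ε →
      ∀ T' ∈ Ico 0 T, ∃ t ∈ Ico T' T, ∃ y, ¬ Far ε x₀ y ∧
        (A * (T - t) ^ (-((d : ℝ) * (1 - 1 / r))) < mass f t y ∨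
          A * (T - t) ^ (-(((d : ℝ) + 2) * (1 - 1 / r))) < energy f t y)) := by
  intro d hd s γ K hs hs1 hγ hγs hK b hb T f hT hsol
  refine ⟨?_, ?_, ?_⟩
  · intro x a e A hx0 hx1 ha he hbd
    exact core All.mast All.lamrh All.hydn hd hs hs1 hγ hγs hK hb hT hsol hx0 hx1 ha he hbd
  · intro x₀ hI x a e A ε hx0 hx1 ha0 ha he0 he hε T' hT'
    exact core3 All.mast All.lamrh All.hydn hd hs hs1 hγ hγs hK hb hsol hI hε hx0 hx1 ha0 he0
      ha he hT'
  · intro x₀ hI hdim r A ε hr1 hr2 hε T' hT'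
    have hd2 : (2 : ℝ) ≤ d := by exact_mod_cast hd
    have hdim' : d = 2 ∧ γ < 2 ∨ d = 3 ∧ γ < √3 := by
      rcases hdim with h | h
      · exact Or.inl ⟨h, by linarith⟩
      · exact Or.inr h
    have key := (All.ari d γ r (by linarith) hdim' hr1 hr2).1
    have hx0 : 0 ≤ 1 - 1 / r := by
      have : 1 / r ≤ 1 := by
        rw [div_le_one (by linarith)]
        exact hr1.le
      linarith
    refine core3 All.mast All.lamrh All.hydn hd hs hs1 hγ hγs hK hb hsol hI hε hx0 key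
      (mul_nonneg (by linarith) hx0) (mul_nonneg (by linarith) hx0) ?_ ?_ hT'
    · nlinarith [key]
    · nlinarith [key]

end Pool.Agent.H43.Former.ImplosionRates
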