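import Pool.Agent.H43.BZ.AllL
import Pool.Agent.H43.BZ.CoreS
import Pool.Agent.H71.BZ.SOFT1
import Pool.Agent.H271.BZ.Soft3
import Pool.Agent.H737.BZ.LND

/-!
# Landau equation, `-2 < γ < 0`: slow blow-up of bounded solutions is impossible

Let `f ≤ A₀` on `[0,T)`, `p ≥ 2`, `p (d+γ) ≥ 2d`.  If the mass density is at most `A (T-t)^(-a)` and
the moment of order `p` at most `A (T-t)^(-e)`, with `a < d/(d+γ)` and `e < (d+p)/(d+γ)`, then mass,
energy and entropy densities are bounded on `[0,T)`.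

Proof: `LandauScaleCriterion` at the moving velocity scale `(T-t)^(-x)`, `x < 1/(d+γ)` close to
`1/(d+γ)`; the collision moment at scale `R` is at most `C (A₀^(-γ/d) M^(1+γ/d) + R^γ M)`,
`M = ρ + R^(-p) ∫ f |v|^p`.
-/

set_option autoImplicit false

open MeasureTheory Metric Set Filter Topology
open scoped RealInnerProductSpace ENNReal

namespace Pool.Agent.Results.MP_c15324_an.LandauSlowBlowup

open Pool.Agent.H43.BZ

theorem measL {d : ℕ} {γ : ℝ} {T : ℝ} {f : ℝ → E d → E d → ℝ} (h : SolL d γ T f)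
    {t : ℝ} (ht : t ∈ Ico 0 T) (x : E d) : Measurable (f t x) := by
  have hc : Continuous fun v : E d => ((t, x, v) : ℝ × E d × E d) := by fun_prop
  have : ContinuousOn (fun v : E d => f t x v) univ :=
    h.cont.comp hc.continuousOn fun v _ => ⟨ht, mem_univ _⟩
  exact (continuousOn_univ.1 this).measurable

theorem result : ∀ d : ℕ, 2 ≤ d → ∀ γ : ℝ, -2 < γ → γ < 0 →
    ∀ (T : ℝ) (f : ℝ → E d → E d → ℝ), 0 < T → SolL d γ T f →
    ∀ A₀ : ℝ, (∀ t ∈ Ico 0 T, ∀ x v, f t x v ≤ A₀) →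
    ∀ p a e A : ℝ, 2 ≤ p → 2 * d ≤ p * (d + γ) → a < d / (d + γ) → e < (d + p) / (d + γ) →
    (∀ t ∈ Ico 0 T, ∀ x, mass f t x ≤ A * (T - t) ^ (-a) ∧ mom p f t x ≤ A * (T - t) ^ (-e)) →
    ∃ B : ℝ, ∀ t ∈ Ico 0 T, ∀ x, (∀ v, f t x v ≤ B * P d v) ∧ mass f t x ≤ B ∧
      energy f t x ≤ B ∧ ∫ v, f t x v * Real.log (f t x v) ≤ B := by
  intro d hd γ hγ hγ0 T f hT hsol A₀ hA₀ p a e A hp hsp ha he hbd
  have hd2 : (2 : ℝ) ≤ d := by exact_mod_cast hd
  have h1 : S_SOFT1 := Pool.Agent.H71.BZ.SOFT1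
  have h3 : S_SOFT3 := Pool.Agent.H271.BZ.Soft3.SOFT3
  have hL := Pool.Agent.H737.BZ.LND
  obtain ⟨B, hB⟩ := softcore (A := max A₀ A) h1 h3 hd one_pos le_rfl (by linarith) hγ0 hp
    (by linarith) hT hsol.nonneg
    (fun t ht x => measL hsol ht x)
    (fun t ht x => (Pool.Agent.H643.BZ.SUP d T p f hT (by linarith) hsol.nonneg hsol.cont
      hsol.periodic hsol.decay).2.2 t ht x)
    (fun x hx0 hx1 m hm hle => All.lmast hL d hd γ hγ hγ0 T f hT hsol x hx0 hx1 m hm hle)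
    ha he (fun t ht y v => (hA₀ t ht y v).trans (le_max_left _ _)) (fun t ht y => by
      have hTt : 0 < T - t := by linarith [ht.2]
      exact ⟨(hbd t ht y).1.trans (mul_le_mul_of_nonneg_right (le_max_right _ _)
          (Real.rpow_pos_of_pos hTt _).le),
        (hbd t ht y).2.trans (mul_le_mul_of_nonneg_right (le_max_right _ _)
          (Real.rpow_pos_of_pos hTt _).le)⟩)
  obtain ⟨B', hB'⟩ := All.hydL hsol.nonneg hB
  refine ⟨max B B', fun t ht y => ⟨fun v => ?_, ?_⟩⟩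
  · refine (hB t ht y v).trans ?_
    exact mul_le_mul_of_nonneg_right (le_max_left _ _) (by unfold P; positivity)
  · obtain ⟨h1, h2, h3⟩ := hB' t ht y
    exact ⟨h1.trans (le_max_right _ _), h2.trans (le_max_right _ _), h3.trans (le_max_right _ _)⟩

end Pool.Agent.Results.MP_c15324_an.LandauSlowBlowup
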